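import Pool.Agent.P.MP_faec4e_pr.PL.Dim

/-! The dimensions in which the maximum likelihood estimator has the cube root rate. -/

set_option autoImplicit false

namespace Pool.Agent.Results.MP_faec4e_pr.Dimension

open Pool.Agent.P.MP_faec4e_pr MeasureTheory

theorem result (d : ℕ) (hd : 2 ≤ d) (fhat : ∀ n : ℕ, (Fin n → Fin d → ℝ) → (Fin d → ℝ) → ℝ)
    (h : ∀ n X, (∃ g, IsMLE X g) → IsMLE X (fhat n X)) :
    (∃ γ : ℝ, ∀ f₀ : (Fin d → ℝ) → ℝ, IsSMU f₀ → (∃ B : ℝ, ∀ x, f₀ x ≤ B) →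
      (∃ M : ℝ, 0 < M ∧ ∀ x, (∃ i, x i ∉ Set.Icc 0 M) → f₀ x = 0) →
        IsBigOp (sample f₀) (fun n X => hellinger (fhat n X) f₀)
          fun n => (n : ℝ) ^ (-(1 / 3) : ℝ) * Real.log n ^ γ) ↔ d = 2 := by
  have h' : ∀ n X, IsMLE X (fhat n X) := fun n X => h n X (PL.exists_mle X)
  constructor
  · rintro ⟨γ, hγ⟩
    by_contra hne
    obtain ⟨m, rfl⟩ : ∃ m, d = 3 + m := ⟨d - 3, by omega⟩
    obtain ⟨e, h1, h2, h3, h4⟩ := PL.q_NEG m fhat fun n X => (h' n X).1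
    exact h4 γ (hγ e h1 ⟨8, h2⟩ ⟨2, two_pos, h3⟩)
  · rintro rfl
    exact ⟨4, PL.q_POS fhat h'⟩

end Pool.Agent.Results.MP_faec4e_pr.Dimension
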