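import Pool.Agent.P.MP_faec4e_pr.Construct

namespace Pool.Agent.Results.MP_faec4e_pr.SlowRate

open Pool.Agent.P.MP_faec4e_pr MeasureTheory

theorem result (fhat : ∀ n : ℕ, (Fin n → Fin 3 → ℝ) → (Fin 3 → ℝ) → ℝ)
    (h : ∀ n X, IsSMU (fhat n X)) :
    ∃ f₀ : (Fin 3 → ℝ) → ℝ, IsSMU f₀ ∧ (∃ B : ℝ, ∀ x, f₀ x ≤ B) ∧
      (∃ M : ℝ, 0 < M ∧ ∀ x, (∃ i, x i ∉ Set.Icc 0 M) → f₀ x = 0) ∧
      ∀ γ : ℝ, ¬ IsBigOp (sample f₀) (fun n X => hellinger (fhat n X) f₀)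
        fun n => (n : ℝ) ^ (-(1 / 3) : ℝ) * Real.log n ^ γ := by
  obtain ⟨θ, hθ⟩ := lower (g := fhat) fun n X => (h n X).integrable
  refine ⟨smu (GG θ), ⟨GG θ, inferInstance,
    (GG_ae θ).mono fun y hy i => lt_of_lt_of_le (by norm_num) (hy i).1, rfl⟩,
    ⟨8, smu_GG_le θ⟩, ⟨2, two_pos, smu_GG_supp θ⟩, fun γ hO => ?_⟩
  obtain ⟨C, N, hC⟩ := hO (1 / 16) (by norm_num)
  obtain ⟨k, hk, hr⟩ := rate C γ N
  refine absurd (hC _ hk) (not_lt.2 (le_trans (le_of_eq ?_) ((hθ k).trans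
    (measure_mono fun X hX => hr.trans_le (le_trans hX (le_abs_self _))))))
  rw [ENNReal.ofReal_div_of_pos (by norm_num)]
  simp

end Pool.Agent.Results.MP_faec4e_pr.SlowRate
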